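import Pool.Agent.Q264.LK.Stm

/-!
# Components of the graph made of a clique and copies of a graph (project LK of helper264)
-/

set_option autoImplicit false

open Finset
open scoped Classical

namespace Pool.Agent.Q65.LK2

open Pool.Agent.Q264.LK

/-- the embedding of one copy -/
def copyHom (k L : ℕ) {W : Type} (H : SimpleGraph W) (r : W → Prop) (B : Set (Fin k ⊕ (Fin L × W))) (l : Fin L) :
    H.induce {w : W | Sum.inr (l, w) ∈ B} →g (BL k L H r).induce B where
  toFun w := ⟨Sum.inr (l, w.1), w.2⟩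
  map_rel' := by
    rintro ⟨a, ha⟩ ⟨b, hb⟩ h
    exact ⟨rfl, h⟩

theorem t_CCB : S_CCB := by
  intro k L W _ H r B
  set G := (BL k L H r).induce (B : Set (Fin k ⊕ (Fin L × W))) with hG
  have key : ∀ C : G.ConnectedComponent, ∃ y : Fin k ⊕ (Σ l : Fin L, (H.induce {w : W | Sum.inr (l, w) ∈ B}).ConnectedComponent),
      (∀ a : Fin k, y = Sum.inl a → ∃ h : Sum.inl a ∈ (B : Set (Fin k ⊕ (Fin L × W))), G.connectedComponentMk ⟨Sum.inl a, h⟩ = C) ∧
      (∀ l c, y = Sum.inr ⟨l, c⟩ → ∃ w, (H.induce {w : W | Sum.inr (l, w) ∈ B}).connectedComponentMk w = c ∧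
        G.connectedComponentMk (copyHom k L H r B l w) = C) := by
    intro C
    induction C using SimpleGraph.ConnectedComponent.ind with
    | _ v =>
      obtain ⟨v, hv⟩ := v
      rcases v with a | ⟨l, w⟩
      · refine ⟨Sum.inl a, fun a' h => ?_, fun l c h => by simp at h⟩
        obtain rfl := Sum.inl.inj h
        exact ⟨hv, rfl⟩
      · refine ⟨Sum.inr ⟨l, (H.induce {w : W | Sum.inr (l, w) ∈ B}).connectedComponentMk ⟨w, hv⟩⟩,
          fun a h => by simp at h, fun l' c h => ?_⟩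
        have h' := Sum.inr.inj h
        obtain ⟨rfl, h2⟩ := Sigma.mk.inj h'
        obtain rfl := eq_of_heq h2
        exact ⟨⟨w, hv⟩, rfl, rfl⟩
  choose f hf1 hf2 using key
  have hinj : Function.Injective f := by
    intro C C' h
    rcases hy : f C with a | ⟨l, c⟩
    · obtain ⟨h1, h2⟩ := hf1 C a hy
      obtain ⟨h3, h4⟩ := hf1 C' a (h ▸ hy)
      rw [← h2, ← h4]
    · obtain ⟨w, h1, h2⟩ := hf2 C l c hy
      obtain ⟨w', h3, h4⟩ := hf2 C' l c (h ▸ hy)
      rw [← h2, ← h4]
      rw [SimpleGraph.ConnectedComponent.eq]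
      have h5 : (H.induce {w : W | Sum.inr (l, w) ∈ B}).Reachable w w' :=
        SimpleGraph.ConnectedComponent.eq.1 (h1.trans h3.symm)
      exact h5.map (copyHom k L H r B l)
  have h1 := Nat.card_le_card_of_injective f hinj
  have h2 : Nat.card (Fin k ⊕ (Σ l : Fin L, (H.induce {w : W | Sum.inr (l, w) ∈ B}).ConnectedComponent)) =
      k + ∑ l : Fin L, CC H {w : W | Sum.inr (l, w) ∈ B} := by
    rw [Nat.card_sum, Nat.card_fin, Nat.card_sigma]
    rfl
  rw [h2] at h1
  exact h1

end Pool.Agent.Q65.LK2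

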