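import Pool.Agent.Q264.LK.Stm

/-!
# Vertices minus edges is at most the number of components (project LK of helper264)
-/

set_option autoImplicit false

open Finset
open scoped Classical

namespace Pool.Agent.Q65.LK2

open Pool.Agent.Q264.LK

theorem conn_ineq {W : Type} [Fintype W] (T : SimpleGraph W) (h : T.Connected) :
    2 * Fintype.card W ≤ 2 + ∑ v : W, (univ.filter fun w => T.Adj v w).card := by
  have h1 := h.card_vert_le_card_edgeSet_add_one
  have h2 := T.sum_degrees_eq_twice_card_edges
  rw [Nat.card_eq_fintype_card, Nat.card_eq_fintype_card, ← SimpleGraph.edgeFinset_card] at h1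
  have h3 : ∑ v : W, T.degree v = ∑ v : W, (univ.filter fun w => T.Adj v w).card := by
    refine Finset.sum_congr rfl fun v _ => ?_
    rw [← SimpleGraph.card_neighborFinset_eq_degree]
    congr 1
    ext w
    simp
  omega

theorem comp_ineq {W : Type} [Fintype W] (H : SimpleGraph W) :
    2 * Fintype.card W ≤ 2 * Nat.card H.ConnectedComponent + ∑ v : W, (univ.filter fun w => H.Adj v w).card := by
  have hc : ∀ c : H.ConnectedComponent, 2 * (univ.filter fun v => H.connectedComponentMk v = c).card ≤
      2 + ∑ v ∈ univ.filter (fun v => H.connectedComponentMk v = c), (univ.filter fun w => H.Adj v w).card := by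
    intro c
    have h1 := conn_ineq (H.induce c.supp) c.connected_toSimpleGraph
    refine le_trans (le_of_eq ?_) (h1.trans (le_of_eq ?_))
    · congr 1
      rw [← Finset.card_univ]
      symm
      refine Finset.card_bij (fun w _ => w.1) ?_ ?_ ?_
      · intro w _
        rw [mem_filter]
        exact ⟨mem_univ _, w.2⟩
      · intro a _ b _ h
        exact Subtype.ext h
      · intro b hb
        rw [mem_filter] at hb
        exact ⟨⟨b, hb.2⟩, mem_univ _, rfl⟩
    · congr 1
      refine Finset.sum_bij (fun w _ => w.1) ?_ ?_ ?_ ?_
      · intro w _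
        rw [mem_filter]
        exact ⟨mem_univ _, w.2⟩
      · intro a _ b _ h
        exact Subtype.ext h
      · intro b hb
        rw [mem_filter] at hb
        exact ⟨⟨b, hb.2⟩, mem_univ _, rfl⟩
      · intro v _
        refine Finset.card_bij (fun w _ => w.1) ?_ ?_ ?_
        · intro w hw
          rw [mem_filter] at hw ⊢
          exact ⟨mem_univ _, hw.2⟩
        · intro a _ b _ h
          exact Subtype.ext h
        · intro b hb
          rw [mem_filter] at hb
          have hb' : b ∈ c.supp := by
            have h4 : H.connectedComponentMk v.1 = c := v.2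
            rw [SimpleGraph.ConnectedComponent.mem_supp_iff, ← h4]
            exact SimpleGraph.ConnectedComponent.sound hb.2.symm.reachable
          exact ⟨⟨b, hb'⟩, by rw [mem_filter]; exact ⟨mem_univ _, hb.2⟩, rfl⟩
  have hs := Finset.sum_le_sum fun (c : H.ConnectedComponent) (_ : c ∈ univ) => hc c
  rw [← Finset.mul_sum, Finset.sum_add_distrib] at hs
  have h1 : ∑ c : H.ConnectedComponent, (univ.filter fun v => H.connectedComponentMk v = c).card = Fintype.card W := by
    rw [← Finset.card_univ (α := W)]
    exact (Finset.card_eq_sum_card_fiberwise fun x _ => mem_univ _).symm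
  have h2 : ∑ c : H.ConnectedComponent, ∑ v ∈ univ.filter (fun v => H.connectedComponentMk v = c),
      (univ.filter fun w => H.Adj v w).card = ∑ v : W, (univ.filter fun w => H.Adj v w).card :=
    Finset.sum_fiberwise _ _ _
  rw [h1, h2] at hs
  simp only [sum_const, card_univ, smul_eq_mul] at hs
  rw [Nat.card_eq_fintype_card]
  omega

theorem t_FOR : S_FOR := by
  intro V _ G B
  have h := comp_ineq (G.induce (B : Set V))
  refine le_trans (le_of_eq ?_) (h.trans (le_of_eq ?_))
  · simp
  · unfold dd CC
    congr 1
    refine Finset.sum_bij (fun w _ => w.1) ?_ ?_ ?_ ?_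
    · intro w _
      exact w.2
    · intro a _ b _ h
      exact Subtype.ext h
    · intro b hb
      exact ⟨⟨b, hb⟩, mem_univ _, rfl⟩
    · intro v _
      refine Finset.card_bij (fun w _ => w.1) ?_ ?_ ?_
      · intro w hw
        rw [mem_filter] at hw ⊢
        exact ⟨w.2, hw.2⟩
      · intro a _ b _ h
        exact Subtype.ext h
      · intro b hb
        rw [mem_filter] at hb
        exact ⟨⟨b, hb.1⟩, by rw [mem_filter]; exact ⟨mem_univ _, hb.2⟩, rfl⟩

end Pool.Agent.Q65.LK2

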